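import Pool.Agent.Y2.Ds.Max

/-!
# Rings over which the modules are distributive over their endomorphism rings

A stronger form of the classification of the admissible rings (the rings `A` such that every right
`A`-module is distributive over its endomorphism ring): they are the rings over which every left
module is distributive over its endomorphism ring, and the lattices of submodules over the
endomorphism rings are then finite of bounded size. If `A` is the direct product of the artinian
chain rings `B i` and `m i` is the least exponent with `J(B i) ^ m i = 0` (the composition length of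
`B i`), then the largest number of submodules over the endomorphism ring which a right `A`-module
can have is `2 ^ (∑ i, m i)`.
-/

set_option autoImplicit false

universe u

namespace Pool.Agent.Results.MP_14cded_al.BoundedLattices

open Pool.Agent.Dist14 Pool.Agent.Y2.Ds

/-- For a ring `A` the following are equivalent: every right `A`-module is distributive over its
endomorphism ring; every left `A`-module is; for some `N` the lattice of submodules over the
endomorphism ring is distributive with at most `N` elements for every right `A`-module; `A` is a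
finite direct product of artinian chain rings. If `A` is isomorphic to the direct product of the
artinian chain rings `B i`, and `m i` is the least exponent with `J(B i) ^ m i = 0`, then every
right `A`-module has at most `2 ^ (∑ i, m i)` submodules over its endomorphism ring, and some right
`A`-module has exactly that many. -/
theorem result (A : Type u) [Ring A] :
    List.TFAE [
      Admissible A,
      ∀ (M : Type u) [AddCommGroup M] [Module A M],
        ∀ U V W : Submodule (Module.End A M) M, U ⊓ (V ⊔ W) = (U ⊓ V) ⊔ (U ⊓ W),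
      ∃ N : ℕ, ∀ (M : Type u) [AddCommGroup M] [Module Aᵐᵒᵖ M],
        (∀ U V W : Submodule (Module.End Aᵐᵒᵖ M) M, U ⊓ (V ⊔ W) = (U ⊓ V) ⊔ (U ⊓ W)) ∧
          Finite (Submodule (Module.End Aᵐᵒᵖ M) M) ∧
            Nat.card (Submodule (Module.End Aᵐᵒᵖ M) M) ≤ N,
      IsFiniteProductOfArtinianChainRings A] ∧
    ∀ (n : ℕ) (B : Fin n → Type u) [∀ i, Ring (B i)] (m : Fin n → ℕ),
      (∀ i, IsArtinianChainRing (B i)) →
      (∀ i, IsLeast {k : ℕ | Ring.jacobson (B i) ^ k = ⊥} (m i)) →
      Nonempty (A ≃+* ∀ i, B i) →
      (∀ (M : Type u) [AddCommGroup M] [Module Aᵐᵒᵖ M],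
        Finite (Submodule (Module.End Aᵐᵒᵖ M) M) ∧
          Nat.card (Submodule (Module.End Aᵐᵒᵖ M) M) ≤ 2 ^ ∑ i, m i) ∧
      ∃ (M : Type u) (_ : AddCommGroup M) (_ : Module Aᵐᵒᵖ M),
        Nat.card (Submodule (Module.End Aᵐᵒᵖ M) M) = 2 ^ ∑ i, m i := by
  have hbound : ∀ (n : ℕ) (B : Fin n → Type u) [∀ i, Ring (B i)] (m : Fin n → ℕ),
      (∀ i, IsArtinianChainRing (B i)) → (∀ i, Ring.jacobson (B i) ^ m i = ⊥) →
      Nonempty (A ≃+* ∀ i, B i) →
      ∀ (M : Type u) [AddCommGroup M] [Module Aᵐᵒᵖ M],
        Finite (Submodule (Module.End Aᵐᵒᵖ M) M) ∧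
          Nat.card (Submodule (Module.End Aᵐᵒᵖ M) M) ≤ 2 ^ ∑ i, m i := by
    rintro n B _ m hB hm ⟨f⟩ M _ _
    exact bound_right B m hB hm f M
  refine ⟨?_, ?_⟩
  · tfae_have 1 ↔ 4 := Pool.Agent.Dist14D.classification A
    tfae_have 2 → 4 := fun h => Pool.Agent.Dist14D.good_of_ladm h
    tfae_have 4 → 2 := fun h => good_ladm h
    tfae_have 3 → 1 := by
      rintro ⟨N, hN⟩ M _ _
      exact (hN M).1
    tfae_have 4 → 3 := by
      intro h
      have hadm : Admissible A := (Pool.Agent.Dist14D.classification A).2 h
      obtain ⟨n, B, hR, hB, hf⟩ := h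
      choose m hm using fun i => jacobson_nilpotent (hB i)
      exact ⟨2 ^ ∑ i, m i, fun M _ _ => ⟨hadm M, hbound n B m hB hm hf M⟩⟩
    tfae_finish
  · intro n B _ m hB hm hf
    refine ⟨hbound n B m hB (fun i => (hm i).1) hf, ?_⟩
    obtain ⟨f⟩ := hf
    obtain ⟨M, h1, h2, h3⟩ := attained_right B m hB (fun i => (hm i).1)
      (fun i j hj h0 => absurd ((hm i).2 h0) (not_le.2 hj)) f
    exact ⟨M, h1, h2, le_antisymm (hbound n B m hB (fun i => (hm i).1) ⟨f⟩ M).2 h3⟩

end Pool.Agent.Results.MP_14cded_al.BoundedLattices
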